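import Pool.Agent.helper34.FJ3.DefsB

set_option autoImplicit false

/-!
# FJ3, module B7: the first variation formula
-/

namespace Pool.Agent.helper77.FJ3

open Pool.Agent.helper34.FJ2 Pool.Agent.helper34.FJ3
open scoped BigOperators

/-- a sequence which is midpoint convex lies below its chord at the index `1` -/
theorem conv_seq (N : ℕ) (hN : 1 ≤ N) (g : ℕ → ℝ)
    (h : ∀ j, 1 ≤ j → j < N → 2 * g j ≤ g (j - 1) + g (j + 1)) :
    g 1 ≤ (1 - 1 / (N : ℝ)) * g 0 + (1 / (N : ℝ)) * g N := by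
  -- the increments are monotone
  have hmono : ∀ j, j < N → g 1 - g 0 ≤ g (j + 1) - g j := by
    intro j
    induction j with
    | zero => intro _; simp
    | succ j ih =>
      intro hj
      have h1 := ih (by omega)
      have h2 := h (j + 1) (by omega) hj
      rw [Nat.add_sub_cancel] at h2
      linarith
  have hsum : ∀ j, j ≤ N → (j : ℝ) * (g 1 - g 0) ≤ g j - g 0 := by
    intro j
    induction j with
    | zero => intro _; simp
    | succ j ih =>
      intro hj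
      have h1 := ih (by omega)
      have h2 := hmono j (by omega)
      push_cast
      linarith
  have h1 := hsum N le_rfl
  have hN' : (0 : ℝ) < N := by exact_mod_cast hN
  have h2 : g 1 - g 0 ≤ (1 / (N : ℝ)) * (g N - g 0) := by
    rw [one_div, inv_mul_eq_div, le_div_iff₀ hN']
    linarith
  linarith

theorem cos_law_nonneg (A B α : ℝ) (hA0 : 0 ≤ A) (hB0 : 0 ≤ B) :
    0 ≤ A ^ 2 + B ^ 2 - 2 * A * B * Real.cos α := by
  have h1 := Real.cos_le_one α
  have h2 := mul_le_mul_of_nonneg_left h1 (mul_nonneg hA0 hB0)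
  have h3 := sq_nonneg (A - B)
  nlinarith

/-- the planar estimate: `A cos β ≤ d` if `β ≥ π/2 - α` and `d` is the third side of the triangle with
sides `A`, `B` and angle `α` -/
theorem planar_key (A B d α β : ℝ) (hA0 : 0 ≤ A) (hB0 : 0 ≤ B) (hd0 : 0 ≤ d)
    (hαπ : α ≤ Real.pi) (hβπ : β ≤ Real.pi) (hβ1 : Real.pi / 2 - α ≤ β)
    (sq2 : d ^ 2 = A ^ 2 + B ^ 2 - 2 * A * B * Real.cos α) : A * Real.cos β ≤ d := by
  by_cases hαc : α ≤ Real.pi / 2
  · have h1 : Real.cos β ≤ Real.sin α := by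
      rw [← Real.cos_pi_div_two_sub]
      exact Real.cos_le_cos_of_nonneg_of_le_pi (by linarith) hβπ hβ1
    have h2 : A * Real.cos β ≤ A * Real.sin α := mul_le_mul_of_nonneg_left h1 hA0
    have h3 : (A * Real.sin α) ^ 2 ≤ d ^ 2 := by
      have h4 := Real.sin_sq_add_cos_sq α
      have h5 : d ^ 2 - (A * Real.sin α) ^ 2 = (B - A * Real.cos α) ^ 2 := by
        have h6 : Real.sin α ^ 2 = 1 - Real.cos α ^ 2 := by linarith
        rw [sq2, mul_pow, h6]; ring
      have h7 := sq_nonneg (B - A * Real.cos α)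
      linarith
    exact h2.trans (abs_le_of_sq_le_sq' h3 hd0).2
  · push Not at hαc
    have h1 : Real.cos α ≤ 0 :=
      Real.cos_nonpos_of_pi_div_two_le_of_le hαc.le (by linarith [Real.pi_pos])
    have h2 : A ^ 2 ≤ d ^ 2 := by
      have h3 : 0 ≤ A * B := mul_nonneg hA0 hB0
      have h4 : 0 ≤ A * B * (-Real.cos α) := mul_nonneg h3 (by linarith)
      have h5 := sq_nonneg B
      rw [sq2]
      linarith
    have h3 : A ≤ d := (abs_le_of_sq_le_sq' h2 hd0).2
    have h4 := Real.cos_le_one β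
    have h5 : A * Real.cos β ≤ A * 1 := mul_le_mul_of_nonneg_left h4 hA0
    linarith

theorem first_variation_of {V : Type} {Y : Complex2 V} {len : V → V → ℝ} {Γ : V → MGraph V}
    (R : Realization Y len Γ) (hlen : ∀ a b, Y.edge a b → 0 < len a b) (O p x : V)
    (hpx : Y.edge p x) (k : ℕ) (hk : 0 < k)
    (hconv : ∀ {L L' : ℝ} {q q' : ℕ → R.M}, KGeo k L q → KGeo k L' q' →
      L ≤ k * (R.r0 / 16) → L' ≤ k * (R.r0 / 16) → q 0 = q' 0 →
      (∀ i, i ≤ k → dist (q i) (q' i) ≤ 2 * (R.r0 / 16)) →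
      ∀ i, i ≤ k → dist (q i) (q' i) ≤ (i / k : ℝ) * dist (q k) (q' k))
    (henergy : ∀ {L : ℝ} {q : ℕ → R.M}, KGeo k L q → L ≤ k * (R.r0 / 16) → ∀ (p : ℕ → R.M),
      p 0 = q 0 → p k = q k → (∀ i, i ≤ k → dist (p i) (q i) ≤ R.r0 / 16) →
      L ^ 2 ≤ k * ∑ i ∈ Finset.range k, dist (p i) (p (i + 1)) ^ 2)
    (hstrict : ∀ {L L' L'' : ℝ} {q q' q'' : ℕ → R.M}, KGeo k L q → KGeo k L' q' →
      KGeo k L'' q'' → L ≤ k * (R.r0 / 16) → L' ≤ k * (R.r0 / 16) → L'' ≤ k * (R.r0 / 16) →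
      q 0 = q' 0 → q 0 = q'' 0 → dist (q k) (q'' k) = dist (q k) (q' k) / 2 →
      dist (q' k) (q'' k) = dist (q k) (q' k) / 2 →
      (∀ i, i ≤ k → dist (q i) (q' i) ≤ R.r0 / 16) →
      (∀ i, i ≤ k → dist (q i) (q'' i) ≤ R.r0 / 32) →
      L'' ^ 2 ≤ L ^ 2 / 2 + L' ^ 2 / 2 - dist (q k) (q' k) ^ 2 / 4)
    (s : ℝ → ℕ → R.M) (ℓ : ℝ → ℝ)
    (hs : IsSection k (R.vert O) (R.r0 / 16) R.lip (Set.Icc (0 : ℝ) 1) (R.ep p x) s ℓ)
    (h : ℓ 0 = 0 ∨ Real.pi / 2 ≤ R.a p (R.dir p (s 0 (k - 1))) ((Γ p).vtx x)) :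
    ℓ 0 < ℓ 1 := by
  by_contra hcon
  push Not at hcon
  set lam := len p x with hlam
  have hlam0 : 0 < lam := hlen _ _ hpx
  have hr0 : 0 < R.r0 := R.cn.1
  have hlip := R.lip_pos
  have hkR : (0 : ℝ) < k := by exact_mod_cast hk
  -- lengths are nonnegative
  have hl0 : ∀ c ∈ Set.Icc (0 : ℝ) 1, 0 ≤ ℓ c := by
    intro c hc
    have h1 := (hs.geo c hc).step 0 hk
    have h2 : 0 ≤ ℓ c / k := by rw [← h1]; exact dist_nonneg
    have h3 : ℓ c = (ℓ c / k) * k := by field_simp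
    rw [h3]; positivity
  -- a large number `N`
  obtain ⟨N, hN1⟩ : ∃ N : ℕ, max (k + 2 : ℝ) (max (2 * R.lip / (R.r0 / 16))
      (max (2 * lam / R.r0) (lam / (R.r0 / 32)))) < N := exists_nat_gt _
  have hNk : (k : ℝ) + 2 < N := lt_of_le_of_lt (le_max_left _ _) hN1
  have hN2 : 2 * R.lip / (R.r0 / 16) < N :=
    lt_of_le_of_lt ((le_max_left _ _).trans (le_max_right _ _)) hN1
  have hN3 : 2 * lam / R.r0 < N := lt_of_le_of_lt ((le_max_left _ _).trans
    ((le_max_right _ _).trans (le_max_right _ _))) hN1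
  have hN4 : lam / (R.r0 / 32) < N := lt_of_le_of_lt ((le_max_right _ _).trans
    ((le_max_right _ _).trans (le_max_right _ _))) hN1
  have hN0 : (0 : ℝ) < N := by linarith
  have hNnat : 0 < N := by exact_mod_cast hN0
  have hN2' : R.lip * (2 / N) ≤ R.r0 / 16 := by
    rw [div_lt_iff₀ (by positivity)] at hN2
    rw [mul_div_assoc', div_le_iff₀ hN0]
    linarith
  have hN3' : 2 / (N : ℝ) * lam < R.r0 := by
    rw [div_lt_iff₀ (by positivity)] at hN3
    rw [div_mul_eq_mul_div, div_lt_iff₀ hN0]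
    linarith
  have hN4' : 1 / (N : ℝ) * lam ≤ R.r0 / 32 := by
    rw [div_lt_iff₀ (by positivity)] at hN4
    rw [div_mul_eq_mul_div, div_le_iff₀ hN0]
    linarith
  have hinv : 0 < 1 / (N : ℝ) := by positivity
  have h2N : 2 / (N : ℝ) = 2 * (1 / N) := by ring
  -- distances of the end points
  have hend : ∀ c ∈ Set.Icc (0 : ℝ) 1, ∀ c' ∈ Set.Icc (0 : ℝ) 1, |c - c'| ≤ 2 / N →
      dist (s c k) (s c' k) = |c - c'| * lam := by
    intro c hc c' hc' hcc
    rw [hs.fin c hc, hs.fin c' hc']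
    apply R.ep_dist _ _ _ _ hpx hc.1 hc.2 hc'.1 hc'.2
    exact lt_of_le_of_lt (mul_le_mul_of_nonneg_right hcc hlam0.le) hN3'
  -- smallness
  have hnear : ∀ c ∈ Set.Icc (0 : ℝ) 1, ∀ c' ∈ Set.Icc (0 : ℝ) 1, |c - c'| ≤ 2 / N →
      ∀ i, i ≤ k → dist (s c i) (s c' i) ≤ R.r0 / 16 := by
    intro c hc c' hc' hcc
    apply hs.near c hc c' hc'
    rw [Real.norm_eq_abs]
    exact (mul_le_mul_of_nonneg_left hcc hlip.le).trans hN2'
  have hfine : ∀ c ∈ Set.Icc (0 : ℝ) 1, ∀ c' ∈ Set.Icc (0 : ℝ) 1, |c - c'| ≤ 2 / N →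
      ∀ i, i ≤ k → dist (s c i) (s c' i) ≤ |c - c'| * lam := by
    intro c hc c' hc' hcc i hi
    have h1 := hconv (hs.geo c hc) (hs.geo c' hc') (hs.len c hc) (hs.len c' hc')
      ((hs.start c hc).trans (hs.start c' hc').symm)
      (fun i hi => (hnear c hc c' hc' hcc i hi).trans (by linarith)) i hi
    rw [hend c hc c' hc' hcc] at h1
    refine h1.trans ?_
    have h2 : (i / k : ℝ) ≤ 1 := by
      rw [div_le_one hkR]; exact_mod_cast hi
    have h3 : 0 ≤ |c - c'| * lam := by positivity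
    nlinarith
  -- the points of the subdivision
  have hmem : ∀ j : ℕ, j ≤ N → (j : ℝ) / N ∈ Set.Icc (0 : ℝ) 1 := by
    intro j hj
    refine ⟨by positivity, ?_⟩
    rw [div_le_one hN0]; exact_mod_cast hj
  -- strict convexity
  have hconvF : ∀ j : ℕ, 1 ≤ j → j < N →
      2 * (ℓ (j / N) ^ 2 - lam ^ 2 * (j / N : ℝ) ^ 2) ≤
        (ℓ ((j - 1 : ℕ) / N) ^ 2 - lam ^ 2 * ((j - 1 : ℕ) / N : ℝ) ^ 2) +
        (ℓ ((j + 1 : ℕ) / N) ^ 2 - lam ^ 2 * ((j + 1 : ℕ) / N : ℝ) ^ 2) := by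
    intro j hj1 hjN
    have hm0 := hmem (j - 1) (by omega)
    have hm1 := hmem j (by omega)
    have hm2 := hmem (j + 1) (by omega)
    have e1 : ((j - 1 : ℕ) : ℝ) / N - j / N = -(1 / N) := by
      rw [Nat.cast_sub hj1]; push_cast; ring
    have e2 : ((j + 1 : ℕ) : ℝ) / N - j / N = 1 / N := by
      push_cast; ring
    have e3 : ((j - 1 : ℕ) : ℝ) / N - ((j + 1 : ℕ) : ℝ) / N = -(2 / N) := by
      rw [Nat.cast_sub hj1]; push_cast; ring
    have a1 : |((j - 1 : ℕ) : ℝ) / N - j / N| = 1 / N := by rw [e1, abs_neg, abs_of_pos hinv]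
    have a2 : |((j + 1 : ℕ) : ℝ) / N - j / N| = 1 / N := by rw [e2, abs_of_pos hinv]
    have a3 : |((j - 1 : ℕ) : ℝ) / N - ((j + 1 : ℕ) : ℝ) / N| = 2 / N := by
      rw [e3, abs_neg, abs_of_pos (by positivity)]
    have d1 := hend _ hm0 _ hm1 (by rw [a1]; linarith)
    have d2 := hend _ hm2 _ hm1 (by rw [a2]; linarith)
    have d3 := hend _ hm0 _ hm2 (by rw [a3])
    rw [a1] at d1
    rw [a2] at d2
    rw [a3] at d3
    have key := hstrict (hs.geo _ hm0) (hs.geo _ hm2) (hs.geo _ hm1) (hs.len _ hm0)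
      (hs.len _ hm2) (hs.len _ hm1) ((hs.start _ hm0).trans (hs.start _ hm2).symm)
      ((hs.start _ hm0).trans (hs.start _ hm1).symm) (by rw [d1, d3]; ring)
      (by rw [d2, d3]; ring) (hnear _ hm0 _ hm2 (by rw [a3]))
      (fun i hi => (hfine _ hm0 _ hm1 (by rw [a1]; linarith) i hi).trans (by rw [a1]; exact hN4'))
    rw [d3] at key
    have e4 : (((j - 1 : ℕ) : ℝ)) = j - 1 := by rw [Nat.cast_sub hj1]; simp
    have e5 : (((j + 1 : ℕ) : ℝ)) = j + 1 := by push_cast; ring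
    have e6 : (j / N : ℝ) ^ 2 + (j / N : ℝ) ^ 2 + 2 * (1 / N) ^ 2 =
        (((j - 1 : ℕ) : ℝ) / N) ^ 2 + (((j + 1 : ℕ) : ℝ) / N) ^ 2 := by
      rw [e4, e5]; ring
    have e7 : (2 / (N : ℝ) * lam) ^ 2 / 4 = lam ^ 2 * (1 / N) ^ 2 := by ring
    rw [e7] at key
    have e8 : lam ^ 2 * (j / N : ℝ) ^ 2 + lam ^ 2 * (j / N : ℝ) ^ 2 + 2 * (lam ^ 2 * (1 / N) ^ 2) =
        lam ^ 2 * (((j - 1 : ℕ) : ℝ) / N) ^ 2 + lam ^ 2 * (((j + 1 : ℕ) : ℝ) / N) ^ 2 := by
      linear_combination lam ^ 2 * e6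
    linarith
  have hg := conv_seq N hNnat (fun j => ℓ (j / N) ^ 2 - lam ^ 2 * (j / N : ℝ) ^ 2) hconvF
  have c0 : ((0 : ℕ) : ℝ) / N = 0 := by simp
  have cN : ((N : ℕ) : ℝ) / N = 1 := div_self hN0.ne'
  rw [c0, cN, Nat.cast_one] at hg
  have m0 : (0 : ℝ) ∈ Set.Icc (0 : ℝ) 1 := ⟨le_rfl, zero_le_one⟩
  have m1 : (1 : ℝ) ∈ Set.Icc (0 : ℝ) 1 := ⟨zero_le_one, le_rfl⟩
  have mN : (1 : ℝ) / N ∈ Set.Icc (0 : ℝ) 1 := by
    have := hmem 1 hNnat
    rwa [Nat.cast_one] at this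
  have hF1 : ℓ 1 ^ 2 ≤ ℓ 0 ^ 2 := by
    have := hl0 1 m1
    nlinarith
  have hupper : ℓ (1 / N) ^ 2 ≤ ℓ 0 ^ 2 - lam ^ 2 * (1 / N - (1 / N : ℝ) ^ 2) := by
    have h7 := mul_le_mul_of_nonneg_left hF1 hinv.le
    have e1 : (1 - 1 / (N : ℝ)) * (ℓ 0 ^ 2 - lam ^ 2 * 0 ^ 2) +
        1 / (N : ℝ) * (ℓ 1 ^ 2 - lam ^ 2 * 1 ^ 2) =
        ℓ 0 ^ 2 - 1 / (N : ℝ) * ℓ 0 ^ 2 + 1 / (N : ℝ) * ℓ 1 ^ 2 - lam ^ 2 * (1 / (N : ℝ)) := by ring
    rw [e1] at hg
    have e2 : lam ^ 2 * (1 / N - (1 / N : ℝ) ^ 2) =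
      lam ^ 2 * (1 / (N : ℝ)) - lam ^ 2 * (1 / N : ℝ) ^ 2 := by ring
    rw [e2]
    linarith
  have hNlt : (1 / (N : ℝ)) ^ 2 * (k + 1) < 1 / N := by
    rw [sq, mul_assoc]
    have : 1 / (N : ℝ) * (k + 1) < 1 := by
      rw [one_div, inv_mul_eq_div, div_lt_one hN0]; linarith
    have h8 := mul_lt_mul_of_pos_left this hinv
    linarith
  have hlam2 : 0 < lam ^ 2 := by positivity
  rcases h with h | h
  · -- start in the point `p`
    have : 0 ≤ ℓ (1 / N) ^ 2 := sq_nonneg _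
    rw [h] at hupper
    have h9 := mul_lt_mul_of_pos_left hNlt hlam2
    have e1 : lam ^ 2 * ((1 / (N : ℝ)) ^ 2 * (k + 1)) =
      lam ^ 2 * (1 / (N : ℝ)) ^ 2 + k * (lam ^ 2 * (1 / (N : ℝ)) ^ 2) := by ring
    have e2 : lam ^ 2 * (1 / N - (1 / N : ℝ) ^ 2) =
      lam ^ 2 * (1 / (N : ℝ)) - lam ^ 2 * (1 / N : ℝ) ^ 2 := by ring
    have e3 : 0 ≤ k * (lam ^ 2 * (1 / (N : ℝ)) ^ 2) := by positivity
    rw [e1] at h9
    rw [e2] at hupper
    linarith
  · -- the angle condition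
    set c : ℝ := 1 / N with hc
    set y : R.M := R.ep p x c with hy
    set q : R.M := s c (k - 1) with hq
    have habs : |(0 : ℝ) - c| ≤ 2 / N := by
      rw [zero_sub, abs_neg, abs_of_pos hinv]; linarith
    have habs' : |(0 : ℝ) - c| = c := by rw [zero_sub, abs_neg, abs_of_pos hinv]
    have hkk : k - 1 + 1 = k := by omega
    have hsk : s c k = y := hs.fin c mN
    have hs0k : s 0 k = R.vert p := by rw [hs.fin 0 m0, R.ep_zero _ _ hpx]
    have hdqy : dist q y = ℓ c / k := by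
      have := (hs.geo c mN).step (k - 1) (by omega)
      rw [hkk, hsk] at this
      exact this
    -- the energy of the broken chain
    have hen := henergy (hs.geo 0 m0) (hs.len 0 m0) (fun i => if i < k then s c i else R.vert p)
      (by simp only [hk, if_true]; rw [hs.start c mN, hs.start 0 m0])
      (by simp only [lt_irrefl, if_false]; exact hs0k.symm)
      (by
        intro i hi
        by_cases hik : i < k
        · simp only [hik, if_true]
          rw [dist_comm]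
          exact hnear 0 m0 c mN habs i hi
        · have : i = k := by omega
          subst this
          simp only [lt_irrefl, if_false]
          rw [hs0k, dist_self]
          positivity)
    have hsumm : ∑ i ∈ Finset.range k, dist ((fun i => if i < k then s c i else R.vert p) i)
        ((fun i => if i < k then s c i else R.vert p) (i + 1)) ^ 2 =
        ((k : ℝ) - 1) * (ℓ c / k) ^ 2 + dist q (R.vert p) ^ 2 := by
      rw [← hkk, Finset.sum_range_succ, hkk]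
      have hl : ∀ i ∈ Finset.range (k - 1),
          dist ((fun i => if i < k then s c i else R.vert p) i)
            ((fun i => if i < k then s c i else R.vert p) (i + 1)) ^ 2 = (ℓ c / k) ^ 2 := by
        intro i hi
        rw [Finset.mem_range] at hi
        have h1 : i < k := by omega
        have h2 : i + 1 < k := by omega
        simp only [h1, h2, if_true]
        rw [(hs.geo c mN).step i h1]
      rw [Finset.sum_congr rfl hl, Finset.sum_const, Finset.card_range, nsmul_eq_mul]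
      have h1 : k - 1 < k := by omega
      simp only [h1, if_true, lt_irrefl, if_false]
      rw [Nat.cast_sub (by omega : 1 ≤ k), Nat.cast_one]
    rw [hsumm] at hen
    -- the cone at `p`
    have hpy : dist (R.vert p) y = c * lam := by
      have := hend 0 m0 c mN habs
      rw [hs0k, hsk, habs'] at this
      exact this
    have hδ : dist (s 0 (k - 1)) q ≤ c * lam := by
      have := hfine 0 m0 c mN habs (k - 1) (by omega)
      rwa [habs'] at this
    have hp0 : dist (R.vert p) (s 0 (k - 1)) ≤ R.r0 / 16 := by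
      have h1 := (hs.geo 0 m0).step (k - 1) (by omega)
      rw [hkk, hs0k] at h1
      rw [dist_comm, h1, div_le_iff₀ hkR]
      have := hs.len 0 m0
      linarith
    have hclam : c * lam ≤ R.r0 / 32 := hN4'
    have hpq : dist (R.vert p) q ≤ R.r0 / 16 + R.r0 / 32 :=
      (dist_triangle _ (s 0 (k - 1)) _).trans (by linarith)
    have cone1 := R.cone p q y (by linarith) (by rw [hpy]; linarith)
    have cone2 := R.cone p q (s 0 (k - 1)) (by linarith) (by linarith)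
    have hdir : R.a p (R.dir p y) ((Γ p).vtx x) = 0 :=
      R.dir_ep p x c hpx hinv mN.2 (by linarith)
    have ha := R.ha p
    set α := R.a p (R.dir p q) (R.dir p (s 0 (k - 1))) with hα
    set β := R.a p (R.dir p q) (R.dir p y) with hβ
    have hβ1 : Real.pi / 2 - α ≤ β := by
      have t1 := ha.tri (R.dir p (s 0 (k - 1))) (R.dir p q) ((Γ p).vtx x)
      have t2 := ha.tri (R.dir p q) (R.dir p y) ((Γ p).vtx x)
      rw [hdir] at t2
      rw [ha.symm (R.dir p (s 0 (k - 1))) (R.dir p q)] at t1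
      linarith
    have hβπ : β ≤ Real.pi := ha.le_pi _ _
    have hαπ : α ≤ Real.pi := ha.le_pi _ _
    set A := dist (R.vert p) q with hA
    set B := dist (R.vert p) (s 0 (k - 1)) with hB
    have hA0 : 0 ≤ A := dist_nonneg
    have hB0 : 0 ≤ B := dist_nonneg
    have sq1 : dist q y ^ 2 = A ^ 2 + (c * lam) ^ 2 - 2 * A * (c * lam) * Real.cos β := by
      rw [cone1, cdist]
      simp only
      rw [hpy, Real.sq_sqrt (cos_law_nonneg _ _ _ hA0 (mul_pos hinv hlam0).le)]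
    have sq2 : dist q (s 0 (k - 1)) ^ 2 = A ^ 2 + B ^ 2 - 2 * A * B * Real.cos α := by
      rw [cone2, cdist]
      simp only
      rw [Real.sq_sqrt (cos_law_nonneg _ _ _ hA0 hB0)]
    have hδ' : dist q (s 0 (k - 1)) ≤ c * lam := by rw [dist_comm]; exact hδ
    have hkey : A * Real.cos β ≤ c * lam :=
      (planar_key A B _ α β hA0 hB0 dist_nonneg hαπ hβπ hβ1 sq2).trans hδ'
    have hc0 : 0 < c * lam := by positivity
    have hAd : dist q (R.vert p) = A := dist_comm _ _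
    rw [hAd, ← hdqy] at hen
    have hFc : ℓ c ^ 2 = (k : ℝ) ^ 2 * dist q y ^ 2 := by
      rw [hdqy]; field_simp
    -- conclusion
    have hfin : ℓ 0 ^ 2 ≤ ℓ c ^ 2 + k * (c * lam) ^ 2 := by
      rw [hFc]
      have h4 := mul_le_mul_of_nonneg_left hkey hc0.le
      have h5 : A ^ 2 ≤ dist q y ^ 2 + (c * lam) ^ 2 := by
        rw [sq1]
        have e : A ^ 2 + (c * lam) ^ 2 - 2 * A * (c * lam) * Real.cos β + (c * lam) ^ 2 =
          A ^ 2 + 2 * ((c * lam) * (c * lam) - (c * lam) * (A * Real.cos β)) := by ring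
        rw [e]
        linarith
      have h6 := mul_le_mul_of_nonneg_left h5 hkR.le
      have e1 : (k : ℝ) * (((k : ℝ) - 1) * dist q y ^ 2 + A ^ 2) =
        (k : ℝ) ^ 2 * dist q y ^ 2 - k * dist q y ^ 2 + k * A ^ 2 := by ring
      rw [e1] at hen
      linarith
    have hlt := mul_lt_mul_of_pos_left hNlt hlam2
    have e2 : lam ^ 2 * (c ^ 2 * (k + 1)) = k * (c * lam) ^ 2 + lam ^ 2 * c ^ 2 := by ring
    rw [e2] at hlt
    have e3 : lam ^ 2 * (c - c ^ 2) = lam ^ 2 * c - lam ^ 2 * c ^ 2 := by ring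
    rw [e3] at hupper
    linarith

end Pool.Agent.helper77.FJ3
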